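import Mathlib

/-!
Planar `p`-harmonic functions: definitions.  The plane is `ℂ`.
-/

set_option autoImplicit false

open MeasureTheory Metric Set Filter Topology
open scoped ENNReal NNReal ContDiff ComplexConjugate

namespace Pool.Agent.W585.PH

/-- `∂φ/∂x` for a real function on the plane -/
noncomputable def dx (φ : ℂ → ℝ) (z : ℂ) : ℝ := fderiv ℝ φ z 1

/-- `∂φ/∂y` for a real function on the plane -/
noncomputable def dy (φ : ℂ → ℝ) (z : ℂ) : ℝ := fderiv ℝ φ z Complex.I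

/-- smooth real functions with compact support in `Ω` -/
structure IsTest (Ω : Set ℂ) (φ : ℂ → ℝ) : Prop where
  smooth : ContDiff ℝ ∞ φ
  cpt : HasCompactSupport φ
  supp : tsupport φ ⊆ Ω

/-- locally in `L^q` on `Ω` -/
def LLoc {F : Type*} [NormedAddCommGroup F] (q : ℝ≥0∞) (Ω : Set ℂ) (u : ℂ → F) : Prop :=
  ∀ K, IsCompact K → K ⊆ Ω → MemLp u q (volume.restrict K)

/-- `ux`, `uy` are the weak partial derivatives of `u` on `Ω` -/
def WkD (Ω : Set ℂ) (u ux uy : ℂ → ℂ) : Prop := ∀ φ, IsTest Ω φ →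
  (∫ z, dx φ z • u z = - ∫ z, φ z • ux z) ∧ (∫ z, dy φ z • u z = - ∫ z, φ z • uy z)

/-- `u ∈ W^{1,2}_loc(Ω)` with weak partial derivatives `ux`, `uy` -/
structure W12 (Ω : Set ℂ) (u ux uy : ℂ → ℂ) : Prop where
  l : LLoc 2 Ω u
  lx : LLoc 2 Ω ux
  ly : LLoc 2 Ω uy
  wk : WkD Ω u ux uy

/-- `∂_z` from the pair of partial derivatives -/
noncomputable def wz (a b : ℂ) : ℂ := (a - Complex.I * b) / 2

/-- `∂_{z̄}` from the pair of partial derivatives -/
noncomputable def wb (a b : ℂ) : ℂ := (a + Complex.I * b) / 2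

/-- the Jacobian -/
noncomputable def J (a b : ℂ) : ℝ := ‖wz a b‖ ^ 2 - ‖wb a b‖ ^ 2

/-- the squared norm of the gradient -/
noncomputable def En (a b : ℂ) : ℝ := ‖a‖ ^ 2 + ‖b‖ ^ 2

/-- quasiregular maps: `|u_{z̄}| ≤ k |u_z|` -/
structure QR (k : ℝ) (Ω : Set ℂ) (u ux uy : ℂ → ℂ) : Prop where
  w : W12 Ω u ux uy
  qr : ∀ᵐ z ∂(volume.restrict Ω), ‖wb (ux z) (uy z)‖ ≤ k * ‖wz (ux z) (uy z)‖

/-- the tangential derivative on the circles with centre `x` -/
noncomputable def tau (x z a b : ℂ) : ℂ :=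
  (-(z - x).im / ‖z - x‖) • a + ((z - x).re / ‖z - x‖) • b

/-- the radial power map `w ↦ |w|^m w` -/
noncomputable def pw (m : ℝ) (w : ℂ) : ℂ := (‖w‖ ^ m : ℝ) • w

/-- `h` is `p`-harmonic in `Ω` with (weak) gradient `g` (the gradient `(h_x, h_y)` is the complex
number `h_x + i h_y`): `h, g ∈ L^p_loc`, `g` is the distributional gradient of `h`, and
`div (|g|^{p-2} g) = 0` in the sense of distributions. -/
structure PHarm (p : ℝ) (Ω : Set ℂ) (h : ℂ → ℝ) (g : ℂ → ℂ) : Prop where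
  hLp : LLoc (ENNReal.ofReal p) Ω h
  gLp : LLoc (ENNReal.ofReal p) Ω g
  grad : ∀ φ, IsTest Ω φ → (∫ z, dx φ z * h z = - ∫ z, φ z * (g z).re) ∧
    (∫ z, dy φ z * h z = - ∫ z, φ z * (g z).im)
  eq : ∀ φ, IsTest Ω φ →
    ∫ z, ((pw (p - 2) (g z)).re * dx φ z + (pw (p - 2) (g z)).im * dy φ z) = 0

/-- the precise representative: limit of the averages over the balls of radius `1/(n+1)` -/
noncomputable def prec (u : ℂ → ℂ) (z : ℂ) : ℂ :=
  limUnder atTop (fun n : ℕ => ⨍ w in ball z (1 / ((n : ℝ) + 1)), u w)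

end Pool.Agent.W585.PH
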