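import Pool.Agent.W585.PH.Defs

/-!
Statements of the parts of the proof of the decay estimate with exponent `1` for the flux of
planar `p`-harmonic functions.
-/

set_option autoImplicit false

open MeasureTheory Metric Set Filter Topology
open scoped ENNReal NNReal ContDiff ComplexConjugate

namespace Pool.Agent.W585.PH

/-- mollification in `L^q` -/
def S_moll : Prop := ∀ (q : ℝ), 1 ≤ q → ∀ (Ω : Set ℂ), IsOpen Ω → ∀ (u ux uy : ℂ → ℂ),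
  LLoc (ENNReal.ofReal q) Ω u → LLoc (ENNReal.ofReal q) Ω ux → LLoc (ENNReal.ofReal q) Ω uy →
  WkD Ω u ux uy → ∀ K, IsCompact K → K ⊆ Ω → ∃ v : ℕ → ℂ → ℂ, (∀ n, ContDiff ℝ ∞ (v n)) ∧
    Tendsto (fun n => eLpNorm (fun z => v n z - u z) (ENNReal.ofReal q)
      (volume.restrict K)) atTop (𝓝 0) ∧
    Tendsto (fun n => eLpNorm (fun z => fderiv ℝ (v n) z 1 - ux z) (ENNReal.ofReal q)
      (volume.restrict K)) atTop (𝓝 0) ∧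
    Tendsto (fun n => eLpNorm (fun z => fderiv ℝ (v n) z Complex.I - uy z) (ENNReal.ofReal q)
      (volume.restrict K)) atTop (𝓝 0)

/-- the Jacobian is a divergence -/
def S_jac : Prop := ∀ (Ω : Set ℂ), IsOpen Ω → ∀ (u ux uy : ℂ → ℂ), W12 Ω u ux uy →
  ∀ φ : ℂ → ℝ, ContDiff ℝ 1 φ → HasCompactSupport φ → tsupport φ ⊆ Ω → ∀ c : ℂ,
    2 * ∫ z, φ z * J (ux z) (uy z) =
      ∫ z, (dy φ z * (conj (u z - c) * ux z).im - dx φ z * (conj (u z - c) * uy z).im)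

/-- Wirtinger's inequality on the circle -/
def S_wirt : Prop := ∀ v : ℝ → ℂ, ContDiff ℝ 1 v → (∀ t, v (t + 2 * Real.pi) = v t) →
  ∫ t in (0 : ℝ)..(2 * Real.pi), (conj (v t) * deriv v t).im ≤
    ∫ t in (0 : ℝ)..(2 * Real.pi), ‖deriv v t‖ ^ 2

/-- the isoperimetric inequality on circles, integrated against a weight -/
def S_iso : Prop := ∀ (Ω : Set ℂ), IsOpen Ω → ∀ (u ux uy : ℂ → ℂ), W12 Ω u ux uy →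
  ∀ (x : ℂ) (ρ : ℝ), 0 < ρ → closedBall x ρ ⊆ Ω →
  ∀ om : ℝ → ℝ, Continuous om → (∀ r, 0 ≤ om r) → HasCompactSupport om → tsupport om ⊆ Ioo 0 ρ →
    ∫ r in (0 : ℝ)..ρ, (om r * ∫ z in ball x r, J (ux z) (uy z)) ≤
      (1 / 2) * ∫ z in ball x ρ, om ‖z - x‖ * ‖z - x‖ * ‖tau x z (ux z) (uy z)‖ ^ 2

/-- abstract growth lemma -/
def S_abs : Prop := ∀ (x : ℂ) (ρ : ℝ), 0 < ρ → ∀ (j T : ℂ → ℝ),
  IntegrableOn j (ball x ρ) → IntegrableOn T (ball x ρ) →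
  (∀ᵐ z ∂(volume.restrict (ball x ρ)), 0 ≤ j z) →
  (∀ᵐ z ∂(volume.restrict (ball x ρ)), 0 ≤ T z) →
  (∀ om : ℝ → ℝ, Continuous om → (∀ r, 0 ≤ om r) → HasCompactSupport om → tsupport om ⊆ Ioo 0 ρ →
    ∫ r in (0 : ℝ)..ρ, (om r * ∫ z in ball x r, j z) ≤
      (1 / 2) * ∫ z in ball x ρ, om ‖z - x‖ * ‖z - x‖ * T z) →
  ∀ (w w' : ℝ → ℝ), ContinuousOn w (Ioc 0 ρ) → ContinuousOn w' (Ioc 0 ρ) →
    (∀ r ∈ Ioo 0 ρ, HasDerivAt w (w' r) r) → (∀ r ∈ Ioc 0 ρ, w' r ≤ 0) →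
    (∀ r ∈ Ioc 0 ρ, 0 ≤ w r) →
    (∀ᵐ z ∂(volume.restrict (ball x ρ)),
      - w' ‖z - x‖ * ‖z - x‖ * T z ≤ 2 * w ‖z - x‖ * j z) →
    ∀ r ∈ Ioc 0 ρ, w r * ∫ z in ball x r, j z ≤ w ρ * ∫ z in ball x ρ, j z

/-- growth of the Dirichlet integral of a quasiregular map (Morrey) -/
def S_growth : Prop := ∀ k : ℝ, 0 ≤ k → k < 1 → ∃ C : ℝ, 0 < C ∧
  ∀ (Ω : Set ℂ), IsOpen Ω → ∀ (u ux uy : ℂ → ℂ), QR k Ω u ux uy →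
  ∀ (x : ℂ) (ρ : ℝ), 0 < ρ → closedBall x ρ ⊆ Ω → ∀ r ∈ Ioc 0 ρ,
    ∫ z in ball x r, En (ux z) (uy z) ≤
      C * (r / ρ) ^ (2 * ((1 - k) / (1 + k))) * ∫ z in ball x ρ, En (ux z) (uy z)

/-- quadratic growth of the Dirichlet integral when the dilatation is Hölder small at the
centre -/
def S_growth2 : Prop := ∀ (α L k : ℝ), 0 < α → 0 ≤ L → 0 ≤ k → k < 1 → ∃ C : ℝ, 0 < C ∧
  ∀ (Ω : Set ℂ), IsOpen Ω → ∀ (u ux uy : ℂ → ℂ), W12 Ω u ux uy →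
  ∀ (x : ℂ) (ρ : ℝ), 0 < ρ → closedBall x ρ ⊆ Ω →
  (∀ᵐ z ∂(volume.restrict (ball x ρ)), ‖wb (ux z) (uy z)‖ ≤ k * ‖wz (ux z) (uy z)‖ ∧
    ‖wb (ux z) (uy z)‖ ≤ L * (‖z - x‖ / ρ) ^ α * ‖wz (ux z) (uy z)‖) →
  ∀ r ∈ Ioc 0 ρ,
    ∫ z in ball x r, En (ux z) (uy z) ≤
      C * (r / ρ) ^ 2 * ∫ z in ball x ρ, En (ux z) (uy z)

/-- Poincaré inequality (with a larger ball on the right) -/
def S_poin : Prop := ∃ C : ℝ, 0 < C ∧ ∀ (Ω : Set ℂ), IsOpen Ω → ∀ (u ux uy : ℂ → ℂ),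
  W12 Ω u ux uy → ∀ (x : ℂ) (r : ℝ), 0 < r → closedBall x (2 * r) ⊆ Ω →
    ∫ z in ball x r, ‖u z - ⨍ w in ball x r, u w‖ ≤
      C * r ^ 2 * Real.sqrt (∫ z in ball x (2 * r), En (ux z) (uy z))

/-- Campanato's lemma for the precise representative -/
def S_camp : Prop := ∀ α : ℝ, 0 < α → ∃ C : ℝ, 0 < C ∧
  ∀ (u : ℂ → ℂ) (x : ℂ) (R M : ℝ), 0 < R → 0 ≤ M → IntegrableOn u (closedBall x R) →
  (∀ y ∈ closedBall x (R / 2), ∀ r ∈ Ioc 0 (R / 2),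
    ∫ z in ball y r, ‖u z - ⨍ w in ball y r, u w‖ ≤ M * r ^ 2 * (r / R) ^ α) →
  (∀ᵐ z ∂(volume.restrict (ball x (R / 2))), u z = prec u z) ∧
  (∀ y ∈ closedBall x (R / 2), ∀ r ∈ Ioc 0 (R / 2),
    ‖prec u y - ⨍ w in ball y r, u w‖ ≤ C * M * (r / R) ^ α) ∧
  (∀ y ∈ closedBall x (R / 2), ∀ z ∈ closedBall x (R / 2),
    ‖prec u y - prec u z‖ ≤ C * M * (‖y - z‖ / R) ^ α)

/-- Caccioppoli's inequality for quasiregular maps -/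
def S_cacc : Prop := ∀ k : ℝ, 0 ≤ k → k < 1 → ∃ C : ℝ, 0 < C ∧
  ∀ (Ω : Set ℂ), IsOpen Ω → ∀ (u ux uy : ℂ → ℂ), QR k Ω u ux uy →
  ∀ (x c : ℂ) (r R : ℝ), 0 < r → r < R → closedBall x R ⊆ Ω →
    ∫ z in ball x r, En (ux z) (uy z) ≤ C / (R - r) ^ 2 * ∫ z in ball x R, ‖u z - c‖ ^ 2

/-- interior estimates for quasiregular maps, `L²` version -/
def S_hold2 : Prop := ∀ k : ℝ, 0 ≤ k → k < 1 → ∃ C : ℝ, 0 < C ∧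
  ∀ (Ω : Set ℂ), IsOpen Ω → ∀ (u ux uy : ℂ → ℂ), QR k Ω u ux uy →
  (∀ᵐ z ∂(volume.restrict Ω), u z = prec u z) ∧ ContinuousOn (prec u) Ω ∧
  ∀ (x : ℂ) (R : ℝ), 0 < R → closedBall x R ⊆ Ω → ∀ c : ℂ,
    (∀ y ∈ closedBall x (R / 2),
      ‖prec u y - c‖ ^ 2 ≤ C * (R⁻¹ ^ 2 * ∫ z in ball x R, ‖u z - c‖ ^ 2)) ∧
    (∀ y ∈ closedBall x (R / 4), ∀ z ∈ closedBall x (R / 4),
      ‖prec u y - prec u z‖ ^ 2 ≤ C * ((‖y - z‖ / R) ^ ((1 - k) / (1 + k))) ^ 2 *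
        (R⁻¹ ^ 2 * ∫ z in ball x R, ‖u z - c‖ ^ 2))

/-- interior estimates for quasiregular maps, `L¹` version -/
def S_hold : Prop := ∀ k : ℝ, 0 ≤ k → k < 1 → ∃ C : ℝ, 0 < C ∧
  ∀ (Ω : Set ℂ), IsOpen Ω → ∀ (u ux uy : ℂ → ℂ), QR k Ω u ux uy →
  (∀ᵐ z ∂(volume.restrict Ω), u z = prec u z) ∧ ContinuousOn (prec u) Ω ∧
  ∀ (x : ℂ) (R : ℝ), 0 < R → closedBall x R ⊆ Ω → ∀ c : ℂ,
    (∀ y ∈ closedBall x (R / 2),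
      ‖prec u y - c‖ ≤ C * (R⁻¹ ^ 2 * ∫ z in ball x R, ‖u z - c‖)) ∧
    (∀ y ∈ closedBall x (R / 8), ∀ z ∈ closedBall x (R / 8),
      ‖prec u y - prec u z‖ ≤ C * (‖y - z‖ / R) ^ ((1 - k) / (1 + k)) *
        (R⁻¹ ^ 2 * ∫ z in ball x R, ‖u z - c‖))

/-- the linear estimate in the nondegenerate regime (freezing of the coefficients) -/
def S_nondeg : Prop := ∀ κ : ℝ, 0 ≤ κ → κ < 1 → ∃ C : ℝ, 0 < C ∧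
  ∀ (Ω : Set ℂ), IsOpen Ω → ∀ (f fx fy : ℂ → ℂ), QR κ Ω f fx fy →
  ∀ (x c : ℂ) (R om : ℝ), 0 < R → closedBall x R ⊆ Ω → 0 ≤ om → c ≠ 0 → om ≤ ‖c‖ / 2 →
  (∀ᵐ z ∂(volume.restrict (ball x R)), ‖f z - c‖ ≤ om) →
  (∀ᵐ z ∂(volume.restrict (ball x R)), f z ≠ 0 →
    wb (fx z) (fy z) = ((-(κ * ((f z / ‖f z‖) ^ 2 * conj (wz (fx z) (fy z))).re) : ℝ) : ℂ)) →
  ∀ r ∈ Ioc 0 R,
    ∫ z in ball x r, ‖f z - ⨍ w in ball x r, f w‖ ≤ C * r ^ 2 * (r / R) * om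

/-- translations of Sobolev functions -/
def S_trans : Prop := ∀ (q : ℝ), 1 ≤ q → ∀ (Ω : Set ℂ), IsOpen Ω → ∀ (u ux uy : ℂ → ℂ),
  LLoc (ENNReal.ofReal q) Ω u → LLoc (ENNReal.ofReal q) Ω ux → LLoc (ENNReal.ofReal q) Ω uy →
  WkD Ω u ux uy → ∀ (K K' : Set ℂ) (s : ℂ), IsCompact K → IsCompact K' → K' ⊆ Ω →
  (∀ z ∈ K, ∀ t ∈ Icc (0 : ℝ) 1, z + t • s ∈ K') →
    eLpNorm (fun z => u (z + s) - u z) (ENNReal.ofReal q) (volume.restrict K) ≤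
      ENNReal.ofReal ‖s‖ * (eLpNorm ux (ENNReal.ofReal q) (volume.restrict K') +
        eLpNorm uy (ENNReal.ofReal q) (volume.restrict K'))

/-- integration by parts against a divergence free field -/
def S_div : Prop := ∀ (p : ℝ), 1 < p → ∀ (Ω : Set ℂ), IsOpen Ω → ∀ (h : ℂ → ℝ) (g B : ℂ → ℂ),
  LLoc (ENNReal.ofReal p) Ω h → LLoc (ENNReal.ofReal p) Ω g →
  LLoc (ENNReal.ofReal (p / (p - 1))) Ω B →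
  (∀ φ, IsTest Ω φ → (∫ z, dx φ z * h z = - ∫ z, φ z * (g z).re) ∧
    (∫ z, dy φ z * h z = - ∫ z, φ z * (g z).im)) →
  (∀ φ, IsTest Ω φ → ∫ z, ((B z).re * dx φ z + (B z).im * dy φ z) = 0) →
  ∀ η, IsTest Ω η →
    ∫ z, η z * ((B z).re * (g z).re + (B z).im * (g z).im) =
      - ∫ z, h z * ((B z).re * dx η z + (B z).im * dy η z)

/-- the Caccioppoli inequality for the difference quotients of `|∇h|^{(p-2)/2} ∇h` -/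
def S_dq : Prop := ∀ (p : ℝ), 2 ≤ p → ∀ (Ω : Set ℂ), IsOpen Ω → ∀ (h : ℂ → ℝ) (g : ℂ → ℂ),
  PHarm p Ω h g → ∀ K, IsCompact K → K ⊆ Ω → ∃ C δ : ℝ, 0 ≤ C ∧ 0 < δ ∧ ∀ s : ℂ, ‖s‖ < δ →
    eLpNorm (fun z => pw ((p - 2) / 2) (g (z + s)) - pw ((p - 2) / 2) (g z)) 2
      (volume.restrict K) ≤ ENNReal.ofReal (C * ‖s‖)

/-- bounded difference quotients give weak derivatives in `L²` -/
def S_dqW : Prop := ∀ (Ω : Set ℂ), IsOpen Ω → IsCompact (closure Ω) → ∀ (u : ℂ → ℂ) (C δ : ℝ),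
  0 ≤ C → 0 < δ → MemLp u 2 (volume.restrict (cthickening δ Ω)) →
  (∀ s : ℂ, ‖s‖ < δ →
    eLpNorm (fun z => u (z + s) - u z) 2 (volume.restrict Ω) ≤ ENNReal.ofReal (C * ‖s‖)) →
  ∃ ux uy : ℂ → ℂ, MemLp ux 2 (volume.restrict Ω) ∧ MemLp uy 2 (volume.restrict Ω) ∧
    WkD Ω u ux uy

/-- the chain rule -/
def S_chain : Prop := ∀ (Ω : Set ℂ), IsOpen Ω → ∀ (u ux uy : ℂ → ℂ), W12 Ω u ux uy →
  ∀ (Ψ : ℂ → ℂ), ContDiff ℝ 1 Ψ → ∀ L : ℝ, (∀ w, ‖fderiv ℝ Ψ w‖ ≤ L) →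
    W12 Ω (fun z => Ψ (u z)) (fun z => fderiv ℝ Ψ (u z) (ux z))
      (fun z => fderiv ℝ Ψ (u z) (uy z))

/-- the gradient vanishes almost everywhere on the zero set -/
def S_zero : Prop := ∀ (Ω : Set ℂ), IsOpen Ω → ∀ (u ux uy : ℂ → ℂ), W12 Ω u ux uy →
  ∀ᵐ z ∂(volume.restrict Ω), u z = 0 → ux z = 0 ∧ uy z = 0

/-- the chain rule for functions whose derivative grows at most linearly -/
def S_chain1 : Prop := ∀ (Ω : Set ℂ), IsOpen Ω → ∀ (u ux uy : ℂ → ℂ), W12 Ω u ux uy →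
  ∀ (Ψ : ℂ → ℂ), ContDiff ℝ 1 Ψ → ∀ L : ℝ, (∀ w, ‖fderiv ℝ Ψ w‖ ≤ L * (1 + ‖w‖)) →
    LLoc 1 Ω (fun z => Ψ (u z)) ∧ LLoc 1 Ω (fun z => fderiv ℝ Ψ (u z) (ux z)) ∧
    LLoc 1 Ω (fun z => fderiv ℝ Ψ (u z) (uy z)) ∧
    WkD Ω (fun z => Ψ (u z)) (fun z => fderiv ℝ Ψ (u z) (ux z))
      (fun z => fderiv ℝ Ψ (u z) (uy z))

/-- testing a first order equation with Sobolev functions -/
def S_testW : Prop := ∀ (Ω : Set ℂ), IsOpen Ω → ∀ (A B : ℂ → ℝ), LLoc 2 Ω A → LLoc 2 Ω B →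
  (∀ φ, IsTest Ω φ → ∫ z, (A z * dx φ z + B z * dy φ z) = 0) →
  ∀ (ψ ψx ψy : ℂ → ℂ), W12 Ω ψ ψx ψy →
  (∃ K, IsCompact K ∧ K ⊆ Ω ∧ ∀ z, z ∉ K → ψ z = 0 ∧ ψx z = 0 ∧ ψy z = 0) →
    ∫ z, (A z * (ψx z).re + B z * (ψy z).re) = 0

/-- the first order relations satisfied by `G = |f|^{(p-2)/2} f`, `f = conj ∇h` -/
def S_struct : Prop := ∀ (p : ℝ), 2 ≤ p → ∀ (Ω : Set ℂ), IsOpen Ω → ∀ (h : ℂ → ℝ) (g : ℂ → ℂ),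
  PHarm p Ω h g → ∀ (Gx Gy : ℂ → ℂ), W12 Ω (fun z => pw ((p - 2) / 2) (conj (g z))) Gx Gy →
  ∀ᵐ z ∂(volume.restrict Ω), g z ≠ 0 →
    (1 + (p - 2) / p / 2) * (wb (Gx z) (Gy z)).re +
      ((p - 2) / p / 2) * ((conj (g z) / ‖g z‖) ^ 2 * conj (wz (Gx z) (Gy z))).re = 0 ∧
    (1 - (p - 2) / p / 2) * (wb (Gx z) (Gy z)).im -
      ((p - 2) / p / 2) * ((conj (g z) / ‖g z‖) ^ 2 * conj (wz (Gx z) (Gy z))).im = 0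

end Pool.Agent.W585.PH
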